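import Mathlib
import Pool.Agent.J4H22.IX.Stm3

set_option autoImplicit false

/-! Project IX (helper22), part 3, piece HBC: few multipliers are bad, also for the collisions in the blocks. -/

namespace Pool.Agent.J4H18.IX

open Finset Pool.Agent.J4H22.IX

/-- the multipliers `a` with `a c` near a multiple of `p` for some `c ∈ T` -/
theorem cnt {p : ℕ} (hp : p.Prime) (T : Finset ℤ) (hT : ∀ c ∈ T, ¬ (p : ℤ) ∣ c) {M : ℕ} (hM : 1 ≤ M) :
    {a : ℕ | 1 ≤ a ∧ a < p ∧ ∃ c ∈ T, ∃ d : ℤ, |d| < M ∧ (p : ℤ) ∣ (a : ℤ) * c - d}.Finite ∧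
    {a : ℕ | 1 ≤ a ∧ a < p ∧ ∃ c ∈ T, ∃ d : ℤ, |d| < M ∧ (p : ℤ) ∣ (a : ℤ) * c - d}.ncard ≤ T.card * (2 * M - 2) := by
  classical
  have hpI : Prime (p : ℤ) := Nat.prime_iff_prime_int.1 hp
  set D : Finset ℤ := (Finset.Icc (-((M : ℤ) - 1)) ((M : ℤ) - 1)).erase 0 with hD
  have hDc : D.card = 2 * M - 2 := by
    rw [hD, Finset.card_erase_of_mem (by rw [Finset.mem_Icc]; omega), Int.card_Icc]
    omega
  have huniq : ∀ c ∈ T, ∀ (d : ℤ) (a a' : ℕ), a < p → a' < p →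
      (p : ℤ) ∣ (a : ℤ) * c - d → (p : ℤ) ∣ (a' : ℤ) * c - d → a = a' := by
    intro c hc d a a' ha ha' h1 h2
    have h3 : (p : ℤ) ∣ ((a : ℤ) - a') * c := by
      have := dvd_sub h1 h2
      have e : (a : ℤ) * c - d - ((a' : ℤ) * c - d) = ((a : ℤ) - a') * c := by ring
      rwa [e] at this
    rcases hpI.dvd_or_dvd h3 with h4 | h4
    · have h5 := Int.eq_zero_of_abs_lt_dvd h4 (by rw [abs_lt]; omega)
      omega
    · exact absurd h4 (hT c hc)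
  let g : ℤ × ℤ → ℕ := fun t =>
    if h : ∃ a : ℕ, a < p ∧ (p : ℤ) ∣ (a : ℤ) * t.1 - t.2 then h.choose else 0
  have hsub : {a : ℕ | 1 ≤ a ∧ a < p ∧ ∃ c ∈ T, ∃ d : ℤ, |d| < M ∧ (p : ℤ) ∣ (a : ℤ) * c - d} ⊆
      (((T ×ˢ D).image g : Finset ℕ) : Set ℕ) := by
    rintro a ⟨ha1, ha, c, hc, d, hd, hdvd⟩
    have hd0 : d ≠ 0 := by
      rintro rfl
      rw [sub_zero] at hdvd
      rcases hpI.dvd_or_dvd hdvd with h4 | h4
      · have h5 := Int.eq_zero_of_abs_lt_dvd h4 (by rw [abs_lt]; omega)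
        omega
      · exact hT c hc h4
    rw [Finset.mem_coe, Finset.mem_image]
    refine ⟨(c, d), ?_, ?_⟩
    · rw [Finset.mem_product]
      refine ⟨hc, ?_⟩
      show d ∈ D
      rw [hD, Finset.mem_erase, Finset.mem_Icc]
      rw [abs_lt] at hd
      refine ⟨hd0, ?_, ?_⟩ <;> omega
    · have hex : ∃ a : ℕ, a < p ∧ (p : ℤ) ∣ (a : ℤ) * c - d := ⟨a, ha, hdvd⟩
      have hg : g (c, d) = hex.choose := dif_pos hex
      rw [hg]
      obtain ⟨h1, h2⟩ := hex.choose_spec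
      exact huniq c hc d _ _ h1 ha h2 hdvd
  refine ⟨(Finset.finite_toSet _).subset hsub, ?_⟩
  have h1 := Set.ncard_le_ncard hsub (Finset.finite_toSet _)
  rw [Set.ncard_coe_finset] at h1
  refine h1.trans (Finset.card_image_le.trans ?_)
  rw [Finset.card_product, hDc]

/-- the same block -/
theorem same_block {p q n a x x' : ℕ} (hq : 1 ≤ q) (hn : 1 ≤ n) (h : hsh p q a x' / n = hsh p q a x / n) :
    ∃ d : ℤ, |d| < ((q * n : ℕ) : ℤ) ∧ (p : ℤ) ∣ (a : ℤ) * ((x' : ℤ) - x) - d := by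
  unfold hsh at h
  rw [Nat.div_div_eq_div_mul, Nat.div_div_eq_div_mul] at h
  have hqn : 0 < q * n := Nat.mul_pos hq hn
  have h1 := Nat.div_add_mod (a * x' % p) (q * n)
  have h2 := Nat.div_add_mod (a * x % p) (q * n)
  have h3 := Nat.mod_lt (a * x' % p) hqn
  have h4 := Nat.mod_lt (a * x % p) hqn
  have hkx' : (a : ℤ) * x' = p * ((a * x' / p : ℕ) : ℤ) + ((a * x' % p : ℕ) : ℤ) := by
    exact_mod_cast (Nat.div_add_mod (a * x') p).symm
  have hkx : (a : ℤ) * x = p * ((a * x / p : ℕ) : ℤ) + ((a * x % p : ℕ) : ℤ) := by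
    exact_mod_cast (Nat.div_add_mod (a * x) p).symm
  refine ⟨((a * x' % p : ℕ) : ℤ) - ((a * x % p : ℕ) : ℤ), ?_, ⟨((a * x' / p : ℕ) : ℤ) - ((a * x / p : ℕ) : ℤ), by
    linear_combination hkx' - hkx⟩⟩
  rw [h] at h1
  generalize a * x' % p = X' at *
  generalize a * x % p = X at *
  generalize q * n * (X / (q * n)) = E at *
  rw [abs_lt]
  constructor <;> omega

/-- piece HBC -/
theorem t_HBC : S_HBC := by
  classical
  intro p q n N A B z hp hN hn hq h256 h256q hA hB hAN hBN hz hrep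
  -- first kind
  obtain ⟨T1, hT1⟩ : ∃ T : Finset ℤ, T = ((A ×ˢ B).filter fun e => e.1 + e.2 ≠ z).image fun e => ((e.1 : ℤ) + e.2 - z) := ⟨_, rfl⟩
  have hT1p : ∀ c ∈ T1, ¬ (p : ℤ) ∣ c := by
    intro c hc hdvd
    rw [hT1, mem_image] at hc
    obtain ⟨⟨x, y⟩, he, rfl⟩ := hc
    rw [mem_filter, mem_product] at he
    have hx' := hAN x he.1.1
    have hy' := hBN y he.1.2
    have h5 := Int.eq_zero_of_abs_lt_dvd hdvd (by show |((x : ℤ) + y - z)| < _; rw [abs_lt]; omega)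
    have h6 : ((x : ℤ) + y - z) = 0 := h5
    have h7 : x + y ≠ z := he.2
    omega
  have hT1c : T1.card ≤ n * n := by
    rw [hT1]
    refine card_image_le.trans ((card_filter_le _ _).trans ?_)
    rw [card_product]
    exact Nat.mul_le_mul hA hB
  obtain ⟨f1, c1⟩ := cnt hp T1 hT1p (M := 2 * q) (by omega)
  -- second kind
  obtain ⟨T2, hT2p, hT2c, hT2⟩ : ∃ T2 : Finset ℤ, (∀ c ∈ T2, ¬ (p : ℤ) ∣ c) ∧ T2.card ≤ 2 * n ∧
      ∀ a, (∃ x ∈ A, ∃ y ∈ B, x + y = z ∧ ¬ (Alone p q n a A x ∧ Alone p q n a B y)) →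
        ∃ c ∈ T2, ∃ d : ℤ, |d| < ((q * n : ℕ) : ℤ) ∧ (p : ℤ) ∣ (a : ℤ) * c - d := by
    by_cases hex : ∃ x ∈ A, ∃ y ∈ B, x + y = z
    · obtain ⟨x₀, hx₀, y₀, hy₀, hxy₀⟩ := hex
      refine ⟨(A.erase x₀).image (fun x : ℕ => (x : ℤ) - x₀) ∪ (B.erase y₀).image (fun y : ℕ => (y : ℤ) - y₀), ?_, ?_, ?_⟩
      · intro c hc hdvd
        rw [mem_union, mem_image, mem_image] at hc
        rcases hc with ⟨x, hx, rfl⟩ | ⟨y, hy, rfl⟩
        · rw [mem_erase] at hx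
          have h1 := hAN x hx.2
          have h2 := hAN x₀ hx₀
          have h5 := Int.eq_zero_of_abs_lt_dvd hdvd (by rw [abs_lt]; omega)
          have h7 := hx.1
          omega
        · rw [mem_erase] at hy
          have h1 := hBN y hy.2
          have h2 := hBN y₀ hy₀
          have h5 := Int.eq_zero_of_abs_lt_dvd hdvd (by rw [abs_lt]; omega)
          have h7 := hy.1
          omega
      · refine (card_union_le _ _).trans ?_
        have h1 := (card_image_le (s := A.erase x₀) (f := fun x : ℕ => (x : ℤ) - x₀)).trans (card_le_card (erase_subset x₀ A))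
        have h2 := (card_image_le (s := B.erase y₀) (f := fun y : ℕ => (y : ℤ) - y₀)).trans (card_le_card (erase_subset y₀ B))
        omega
      · rintro a ⟨x, hx, y, hy, hxy, hnot⟩
        have h1 := card_le_one.1 hrep (x, y) (by rw [mem_filter, mem_product]; exact ⟨⟨hx, hy⟩, hxy⟩)
          (x₀, y₀) (by rw [mem_filter, mem_product]; exact ⟨⟨hx₀, hy₀⟩, hxy₀⟩)
        rw [Prod.mk.injEq] at h1
        obtain ⟨rfl, rfl⟩ := h1
        rw [not_and_or] at hnot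
        rcases hnot with h | h
        · unfold Alone at h
          push Not at h
          obtain ⟨x', hx', hb, hne⟩ := h
          refine ⟨(x' : ℤ) - x, mem_union_left _ (mem_image.2 ⟨x', by rw [mem_erase]; exact ⟨hne, hx'⟩, rfl⟩), ?_⟩
          exact same_block hq hn hb
        · unfold Alone at h
          push Not at h
          obtain ⟨x', hx', hb, hne⟩ := h
          refine ⟨(x' : ℤ) - y, mem_union_right _ (mem_image.2 ⟨x', by rw [mem_erase]; exact ⟨hne, hx'⟩, rfl⟩), ?_⟩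
          exact same_block hq hn hb
    · refine ⟨∅, by simp, by simp, ?_⟩
      rintro a ⟨x, hx, y, hy, hxy, _⟩
      exact absurd ⟨x, hx, y, hy, hxy⟩ hex
  have hqn1 : 1 ≤ q * n := Nat.mul_pos hq hn
  obtain ⟨f2, c2⟩ := cnt hp T2 hT2p (M := q * n) hqn1
  have hsub : {a : ℕ | 1 ≤ a ∧ a < p ∧ ((∃ x ∈ A, ∃ y ∈ B, x + y ≠ z ∧ ∃ d : ℤ, |d| < 2 * q ∧
      (p : ℤ) ∣ (a : ℤ) * (x + y - z) - d) ∨
      ∃ x ∈ A, ∃ y ∈ B, x + y = z ∧ ¬ (Alone p q n a A x ∧ Alone p q n a B y))} ⊆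
      {a : ℕ | 1 ≤ a ∧ a < p ∧ ∃ c ∈ T1, ∃ d : ℤ, |d| < ((2 * q : ℕ) : ℤ) ∧ (p : ℤ) ∣ (a : ℤ) * c - d} ∪
      {a : ℕ | 1 ≤ a ∧ a < p ∧ ∃ c ∈ T2, ∃ d : ℤ, |d| < ((q * n : ℕ) : ℤ) ∧ (p : ℤ) ∣ (a : ℤ) * c - d} := by
    rintro a ⟨ha1, ha, h | h⟩
    · left
      obtain ⟨x, hx, y, hy, hxy, d, hd, hdvd⟩ := h
      refine ⟨ha1, ha, (x : ℤ) + y - z, ?_, d, by push_cast; exact hd, hdvd⟩
      rw [hT1, mem_image]
      exact ⟨(x, y), by rw [mem_filter, mem_product]; exact ⟨⟨hx, hy⟩, hxy⟩, rfl⟩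
    · right
      exact ⟨ha1, ha, hT2 a h⟩
  have h1 := Set.ncard_le_ncard hsub (f1.union f2)
  have h2 := h1.trans (Set.ncard_union_le _ _)
  have h3 : T1.card * (2 * (2 * q) - 2) ≤ n * n * (4 * q - 2) := by
    refine (Nat.mul_le_mul_right _ hT1c).trans (le_of_eq ?_)
    congr 1
    omega
  have h4 : T2.card * (2 * (q * n) - 2) ≤ 2 * n * (2 * (q * n)) := Nat.mul_le_mul hT2c (Nat.sub_le _ _)
  obtain ⟨r, rfl⟩ : ∃ r, q = r + 1 := ⟨q - 1, by omega⟩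
  have e1 : 4 * (r + 1) - 2 = 4 * r + 2 := by omega
  rw [e1] at h3
  rw [Nat.add_sub_cancel] at h256q
  have hn1 : 1 ≤ n ^ 2 := Nat.one_le_pow _ _ hn
  have e2 : n * n * (4 * r + 2) = 4 * (n ^ 2 * r) + 2 * n ^ 2 := by ring
  have e3 : 2 * n * (2 * ((r + 1) * n)) = 4 * (n ^ 2 * r) + 4 * n ^ 2 := by ring
  have e4 : 256 * n ^ 2 * r = 256 * (n ^ 2 * r) := by ring
  rw [e2] at h3
  rw [e3] at h4
  rw [e4] at h256q
  omega

end Pool.Agent.J4H18.IX
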